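import Pool.Agent.H94.PI.Main

set_option autoImplicit false

universe u v

namespace Pool.Agent.Results.MP_57f2ab_co.EveryInfiniteAbelianGroup

open Pool.Agent.H94.PI

/-- Let `G` be a group with an infinite commutative subgroup (for example `ℤ`, or any infinite
abelian group). Every set `X` of positive integers with `1 ∈ X` is the product intersection set of a
strictly decreasing sequence of subsets of `G`, and, for every infinite index set `Q`, of a family
`(A_q)_{q ∈ Q}` of subsets of `G` with infinitely many different members. In particular (second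
part) it is the product intersection set of such a family in a commutative semigroup. -/
theorem result :
    (∀ (G : Type v) [Group G] (H : Subgroup G) [Infinite H], (∀ a ∈ H, ∀ b ∈ H, a * b = b * a) →
      ∀ X : Set ℕ+, 1 ∈ X →
        (∃ A : ℕ → Set G, StrictAnti A ∧ productIntersectionSet A = X) ∧
        ∀ (Q : Type u) [Infinite Q], ∃ A : Q → Set G,
          (Set.range A).Infinite ∧ productIntersectionSet A = X) ∧
    (∀ (Q : Type u) [Infinite Q] (X : Set ℕ+), 1 ∈ X →
      ∃ (S : Type u) (_ : CommSemigroup S) (A : Q → Set S),
        (Set.range A).Infinite ∧ productIntersectionSet A = X) := by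
  constructor
  · intro G _ H _ hH X hX
    obtain ⟨A, hA, hAX⟩ := main H hH hX
    refine ⟨⟨A, hA, hAX⟩, fun Q _ => ?_⟩
    obtain ⟨B, hB, hBX⟩ := exists_family A hA Q
    exact ⟨B, hB, hBX.trans hAX⟩
  · intro Q _ X hX
    have h1 : Infinite (⊤ : Subgroup (ULift.{u} (Multiplicative ℤ))) := by
      have e := (Subgroup.topEquiv (G := ULift.{u} (Multiplicative ℤ))).toEquiv
      have : Infinite (ULift.{u} (Multiplicative ℤ)) :=
        Infinite.of_injective (fun n : ℤ => ULift.up (Multiplicative.ofAdd n)) fun a b hab => by
          simpa using hab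
      exact Infinite.of_injective e.symm e.symm.injective
    obtain ⟨A, hA, hAX⟩ := main (⊤ : Subgroup (ULift.{u} (Multiplicative ℤ)))
      (fun a _ b _ => mul_comm a b) hX
    obtain ⟨B, hB, hBX⟩ := exists_family A hA Q
    exact ⟨ULift.{u} (Multiplicative ℤ), inferInstance, B, hB, hBX.trans hAX⟩

end Pool.Agent.Results.MP_57f2ab_co.EveryInfiniteAbelianGroup
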